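import Pool.Agent.Helper20_Mont.GenMean

set_option autoImplicit false

/-!
Montgomery's inequality for every `k ≥ 3` with exponent `1/k` holds, uniformly in `N`, `t`, `a`,
`q`, when the supremum over `ξ` is replaced by the `L^p` mean over `ξ ∈ [0,1]`,
`p = k 2^(k-1) / (2^(k-1) - k)` (`p = 12` for `k = 3` and `p = 8` for `k = 4`).  More generally the
`L^p` mean satisfies the inequality with the exponent `2^(1-k) + 1/p` for every real `p ≥ 4`.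
-/

namespace Pool.Agent.Results.MP_3b0be2_nt.MeanAllDegrees

open Helper69_Weyl Helper20_Mont MeasureTheory

/-- Let `k ≥ 3`.  For every real `p ≥ 4` and every `ε > 0` there is a constant `C` such that for all
`N ≥ 1`, all real `t` and all coprime `1 ≤ a < q ≤ N` with `|t - a/q| ≤ 1/q²` the `L^p` norm over
`ξ ∈ [0,1]` of the Weyl sum `∑_{n ≤ N} e(t n^k + ξ n)` is at most
`C N^{1+ε} (1/q + 1/N + q/N^k)^{2^(1-k) + 1/p}`.  The exponent is `1/k` for the exponent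
`p = k 2^(k-1) / (2^(k-1) - k)`, which is at least `4`. -/
theorem result (k : ℕ) (hk : 3 ≤ k) :
    (∀ p : ℝ, 4 ≤ p → ∀ ε : ℝ, 0 < ε → ∃ C : ℝ, ∀ N : ℕ, 1 ≤ N → ∀ t : ℝ, ∀ a q : ℕ,
      1 ≤ a → a < q → q ≤ N → Nat.Coprime a q →
      |t - (a : ℝ) / (q : ℝ)| ≤ 1 / (q : ℝ) ^ 2 →
      (∫ ξ in (0 : ℝ)..1, ‖∑ n ∈ Finset.Icc 1 N,
          Complex.exp (2 * (Real.pi : ℂ) * Complex.I *
            (((t * (n : ℝ) ^ k + ξ * (n : ℝ)) : ℝ) : ℂ))‖ ^ p) ^ (1 / p)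
        ≤ C * (N : ℝ) ^ (1 + ε) *
          (1 / (q : ℝ) + 1 / (N : ℝ) + (q : ℝ) / (N : ℝ) ^ k) ^ (1 / (2 : ℝ) ^ (k - 1) + 1 / p)) ∧
    (4 ≤ (k : ℝ) * 2 ^ (k - 1) / (2 ^ (k - 1) - k) ∧
      1 / (2 : ℝ) ^ (k - 1) + 1 / ((k : ℝ) * 2 ^ (k - 1) / (2 ^ (k - 1) - k)) = 1 / (k : ℝ)) := by
  refine ⟨?_, exponent_pk k hk⟩
  intro p hp ε hε
  obtain ⟨C, hC0, hC⟩ := mean_general k hk p hp ε hε
  refine ⟨C, ?_⟩
  intro N hN t a q ha haq hqN hcop happ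
  have hp0 : 0 < p := by linarith
  have hN0 : (0 : ℝ) < N := by exact_mod_cast hN
  have hq1 : 1 ≤ q := by omega
  have hq0 : (0 : ℝ) < q := by exact_mod_cast hq1
  have h1 := hC N hN t a q hq1 hqN (by rw [Nat.isCoprime_iff_coprime]; exact hcop)
      (by rw [Int.cast_natCast]; exact happ)
  refine h1.trans ?_
  apply mul_le_mul_of_nonneg_left _ (by positivity)
  rw [Real.rpow_neg hq0.le, ← Real.inv_rpow hq0.le]
  apply Real.rpow_le_rpow (by positivity) _ (by positivity)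
  have a1 : (0 : ℝ) ≤ 1 / (N : ℝ) := by positivity
  have a2 : (0 : ℝ) ≤ (q : ℝ) / (N : ℝ) ^ k := by positivity
  rw [inv_eq_one_div]
  linarith

end Pool.Agent.Results.MP_3b0be2_nt.MeanAllDegrees
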